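import Pool.Agent.H220R3.AT_T8bCore

/-!
Task T8b of the project 508-AT: the energy identity, final form.
-/

set_option autoImplicit false

namespace Pool.Agent.H220R3.AT

open MeasureTheory Filter Topology Set Matrix
open Pool.Agent.H695R3.AT
open Pool.Agent.H508R3.AT
open Pool.Agent.H508R3.SC (M2 ns)

theorem t8b_aux (s : ℕ → ℕ) (lam : ℝ) (Pv : Measure ℝ) [IsProbabilityMeasure Pv] (E : ℝ) (N k : ℕ)
    (h0 : T0) (hfm : Measurable (ff s lam Pv E N k))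
    (hf01 : ∀ z, 0 ≤ ff s lam Pv E N k z ∧ ff s lam Pv E N k z ≤ 1)
    (hf4 : ∫⁻ z, ENNReal.ofReal (ff s lam Pv E N k z) ≤ ENNReal.ofReal 4) :
    (1 / 2) * ∫ p : Om s × Om s, (∫ z : ℝ × ℝ, (ff s lam Pv E N k (z.1, -z.2) -
      ff s lam Pv E N k (z.1, -(z.2 + ((YY s lam p.1 (N + k) E)⁻¹ -
        (YY s lam p.2 (N + k) E)⁻¹) * z.1))) ^ 2) ∂((PP s Pv).prod (PP s Pv)) ≤
    (∫ z : ℝ × ℝ, ff s lam Pv E N k z ^ 2) - ∫ z : ℝ × ℝ, ff s lam Pv E N (k + 1) z ^ 2 := by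
  have hhm : Measurable (fun v : Om s => (YY s lam v (N + k) E)⁻¹) :=
    ((YY_meas lam (N + k)).comp (measurable_id.prodMk measurable_const)).inv
  have := energy (PP s Pv) (ff s lam Pv E N k) (ff s lam Pv E N (k + 1))
    (fun v => (YY s lam v (N + k) E)⁻¹) hhm hfm hf01 hf4 (ff_succ h0 lam Pv E N k)
  exact this

theorem slice_meas (F : ℝ → ℝ × ℝ → ℝ) (h : Measurable (fun p : ℝ × (ℝ × ℝ) => F p.1 p.2))
    (E : ℝ) : Measurable (F E) := by
  have h2 : Measurable (fun z : ℝ × ℝ => (E, z)) := measurable_const.prodMk measurable_id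
  exact h.comp h2

theorem t8b (h0 : T0) (h8 : T8a) : T8b := by
  intro s lam Pv hP E N k
  have h1 := h8 s lam Pv hP N k
  exact t8b_aux s lam Pv E N k h0 (slice_meas (fun E => ff s lam Pv E N k) h1.1 E)
    (h1.2 E).1 (h1.2 E).2.1

end Pool.Agent.H220R3.AT
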