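import Pool.Agent.H508R3.AT.Stmts

/-!
Task T8b of the project 508-AT: the energy identity.
-/

set_option autoImplicit false

namespace Pool.Agent.H220R3.AT

open MeasureTheory Filter Topology Set Matrix
open Pool.Agent.H695R3.AT
open Pool.Agent.H508R3.AT
open Pool.Agent.H508R3.SC (M2 ns)

variable {s : ℕ → ℕ}

lemma mp_int {Φ : ℝ × ℝ → ℝ × ℝ} (hΦ : MeasurePreserving Φ volume volume) {F : ℝ × ℝ → ℝ}
    (hF : Measurable F) : ∫ z, F (Φ z) = ∫ z, F z := by
  have h := integral_map (μ := (volume : Measure (ℝ × ℝ))) hΦ.measurable.aemeasurable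
    (f := F) hF.aestronglyMeasurable
  rw [hΦ.map_eq] at h
  exact h.symm

/-- the reflection -/
lemma mp_refl : MeasurePreserving (fun z : ℝ × ℝ => (z.1, -z.2)) volume volume := by
  have h := (MeasurePreserving.id (volume : Measure ℝ)).prod
    (Measure.measurePreserving_neg (volume : Measure ℝ))
  exact h

/-- the shear -/
lemma mp_shear (t : ℝ) : MeasurePreserving (fun z : ℝ × ℝ => (z.1, z.2 + t * z.1)) volume volume := by
  have h := MeasurePreserving.skew_product (μa := (volume : Measure ℝ)) (μb := (volume : Measure ℝ))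
    (μc := (volume : Measure ℝ)) (μd := (volume : Measure ℝ)) (f := id)
    (MeasurePreserving.id (volume : Measure ℝ)) (g := fun x y => y + t * x) (by
      unfold Function.uncurry
      fun_prop)
    (by
      filter_upwards with x
      exact (measurePreserving_add_right (volume : Measure ℝ) (t * x)).map_eq)
  exact h

/-- `(z₁, z₂) ↦ (z₂, z₁ - h z₂)` -/
lemma mp_step (h : ℝ) : MeasurePreserving (fun z : ℝ × ℝ => (z.2, z.1 - h * z.2)) volume volume := by
  have h1 : MeasurePreserving (Prod.swap : ℝ × ℝ → ℝ × ℝ) volume volume :=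
    Measure.measurePreserving_swap
  have h2 := (mp_shear (-h)).comp h1
  have e : ((fun z : ℝ × ℝ => (z.1, z.2 + -h * z.1)) ∘ Prod.swap) =
      fun z : ℝ × ℝ => (z.2, z.1 - h * z.2) := by
    funext z
    simp only [Function.comp_apply, Prod.fst_swap, Prod.snd_swap]
    congr 1
    ring
  rwa [e] at h2

/-- one step of the recursion for the densities -/
lemma ff_succ (h0 : T0) (lam : ℝ) (Pv : Measure ℝ) [hP : IsProbabilityMeasure Pv] (E : ℝ) (N k : ℕ)
    (z : ℝ × ℝ) : ff s lam Pv E N (k + 1) z =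
      ∫ v, ff s lam Pv E N k (z.2, (YY s lam v (N + k) E)⁻¹ * z.2 - z.1) ∂(PP s Pv) := by
  set P := PP s Pv with hPdef
  have hmT : ∀ (k : ℕ) (i j : Fin 2), Measurable (fun v : Om s => TT s lam v E N k i j) :=
    fun k i j => (TT_meas lam N k i j).comp (measurable_id.prodMk measurable_const)
  have hmY : Measurable (fun v : Om s => YY s lam v (N + k) E) :=
    (YY_meas lam (N + k)).comp (measurable_id.prodMk measurable_const)
  -- the set in the product
  set S : Set (Om s × Om s) := {p | ((TT s lam p.1 E N k) 1 1 * z.2 -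
      (TT s lam p.1 E N k) 0 1 * ((YY s lam p.2 (N + k) E)⁻¹ * z.2 - z.1)) ^ 2 +
      ((TT s lam p.1 E N k) 0 0 * ((YY s lam p.2 (N + k) E)⁻¹ * z.2 - z.1) -
        (TT s lam p.1 E N k) 1 0 * z.2) ^ 2 ≤ 1} with hS
  have hSm : MeasurableSet S := by
    have a11 : Measurable (fun p : Om s × Om s => TT s lam p.1 E N k 1 1) :=
      (hmT k 1 1).comp measurable_fst
    have a01 : Measurable (fun p : Om s × Om s => TT s lam p.1 E N k 0 1) :=
      (hmT k 0 1).comp measurable_fst
    have a00 : Measurable (fun p : Om s × Om s => TT s lam p.1 E N k 0 0) :=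
      (hmT k 0 0).comp measurable_fst
    have a10 : Measurable (fun p : Om s × Om s => TT s lam p.1 E N k 1 0) :=
      (hmT k 1 0).comp measurable_fst
    have hY : Measurable (fun p : Om s × Om s => (YY s lam p.2 (N + k) E)⁻¹) :=
      (hmY.comp measurable_snd).inv
    apply measurableSet_le _ measurable_const
    exact ((a11.mul_const _).sub (a01.mul ((hY.mul_const _).sub_const _))).pow_const 2 |>.add
      (((a00.mul ((hY.mul_const _).sub_const _)).sub (a10.mul_const _)).pow_const 2)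
  have hset : MeasurableSet {v : Om s | ((TT s lam v E N (k + 1)) 1 1 * z.1 -
      (TT s lam v E N (k + 1)) 0 1 * z.2) ^ 2 +
      ((TT s lam v E N (k + 1)) 0 0 * z.2 - (TT s lam v E N (k + 1)) 1 0 * z.1) ^ 2 ≤ 1} := by
    apply measurableSet_le _ measurable_const
    exact ((((hmT (k + 1) 1 1).mul_const _).sub ((hmT (k + 1) 0 1).mul_const _)).pow_const 2).add
      ((((hmT (k + 1) 0 0).mul_const _).sub ((hmT (k + 1) 1 0).mul_const _)).pow_const 2)
  have hmp := h0 s Pv hP (N + k)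
  have hpre : (fun p : Om s × Om s => comb s (N + k) p.1 p.2) ⁻¹'
      {v : Om s | ((TT s lam v E N (k + 1)) 1 1 * z.1 -
      (TT s lam v E N (k + 1)) 0 1 * z.2) ^ 2 +
      ((TT s lam v E N (k + 1)) 0 0 * z.2 - (TT s lam v E N (k + 1)) 1 0 * z.1) ^ 2 ≤ 1} = S := by
    ext p
    have hT : TT s lam (comb s (N + k) p.1 p.2) E N k = TT s lam p.1 E N k := by
      apply TT_congr
      intro x _ hx
      simp only [comb, if_pos hx]
    have hY : YY s lam (comb s (N + k) p.1 p.2) (N + k) E = YY s lam p.2 (N + k) E := by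
      apply YY_congr
      intro i
      simp only [comb, lt_irrefl, if_false]
    simp only [Set.mem_preimage, Set.mem_ofPred_eq, hS, TT, hT, hY]
    have e11 : (Mh (YY s lam p.2 (N + k) E)⁻¹ * TT s lam p.1 E N k) 1 1 =
        (TT s lam p.1 E N k) 0 1 := by
      simp [Mh, Matrix.mul_apply, Fin.sum_univ_two]
    have e10 : (Mh (YY s lam p.2 (N + k) E)⁻¹ * TT s lam p.1 E N k) 1 0 =
        (TT s lam p.1 E N k) 0 0 := by
      simp [Mh, Matrix.mul_apply, Fin.sum_univ_two]
    have e01 : (Mh (YY s lam p.2 (N + k) E)⁻¹ * TT s lam p.1 E N k) 0 1 =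
        (YY s lam p.2 (N + k) E)⁻¹ * (TT s lam p.1 E N k) 0 1 - (TT s lam p.1 E N k) 1 1 := by
      simp [Mh, Matrix.mul_apply, Fin.sum_univ_two]
      ring
    have e00 : (Mh (YY s lam p.2 (N + k) E)⁻¹ * TT s lam p.1 E N k) 0 0 =
        (YY s lam p.2 (N + k) E)⁻¹ * (TT s lam p.1 E N k) 0 0 - (TT s lam p.1 E N k) 1 0 := by
      simp [Mh, Matrix.mul_apply, Fin.sum_univ_two]
      ring
    rw [e11, e10, e01, e00]
    have e : (TT s lam p.1 E N k 0 1 * z.1 -
        ((YY s lam p.2 (N + k) E)⁻¹ * TT s lam p.1 E N k 0 1 - TT s lam p.1 E N k 1 1) * z.2) ^ 2 +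
      (((YY s lam p.2 (N + k) E)⁻¹ * TT s lam p.1 E N k 0 0 - TT s lam p.1 E N k 1 0) * z.2 -
        TT s lam p.1 E N k 0 0 * z.1) ^ 2 =
      (TT s lam p.1 E N k 1 1 * z.2 -
        TT s lam p.1 E N k 0 1 * ((YY s lam p.2 (N + k) E)⁻¹ * z.2 - z.1)) ^ 2 +
      (TT s lam p.1 E N k 0 0 * ((YY s lam p.2 (N + k) E)⁻¹ * z.2 - z.1) -
        TT s lam p.1 E N k 1 0 * z.2) ^ 2 := by ring
    rw [e]
  have h1 : ff s lam Pv E N (k + 1) z = ((P.prod P) S).toReal := by
    unfold ff
    rw [← hPdef, Measure.real, ← hmp.measure_preimage hset.nullMeasurableSet, hpre]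
  rw [h1, Measure.prod_apply_symm hSm]
  rw [← integral_toReal]
  · rfl
  · exact (measurable_measure_prodMk_right hSm).aemeasurable
  · filter_upwards with v
    exact measure_lt_top _ _

/-- the abstract energy identity -/
lemma energy {Ω : Type} [MeasurableSpace Ω] (P : Measure Ω) [IsProbabilityMeasure P]
    (f f' : ℝ × ℝ → ℝ) (hh : Ω → ℝ) (hhm : Measurable hh) (hfm : Measurable f)
    (hf01 : ∀ z, 0 ≤ f z ∧ f z ≤ 1) (hf4 : ∫⁻ z, ENNReal.ofReal (f z) ≤ ENNReal.ofReal 4)
    (hrec : ∀ z : ℝ × ℝ, f' z = ∫ v, f (z.2, hh v * z.2 - z.1) ∂P) :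
    (1 / 2) * ∫ p : Ω × Ω, (∫ z : ℝ × ℝ, (f (z.1, -z.2) -
      f (z.1, -(z.2 + (hh p.1 - hh p.2) * z.1))) ^ 2) ∂(P.prod P) ≤
    (∫ z : ℝ × ℝ, f z ^ 2) - ∫ z : ℝ × ℝ, f' z ^ 2 := by
  set G : ℝ × ℝ → ℝ := fun z => f (z.1, -z.2) with hG
  have hGm : Measurable G := hfm.comp mp_refl.measurable
  have hG0 : ∀ z, 0 ≤ G z := fun z => (hf01 _).1
  have hG1 : ∀ z, G z ≤ 1 := fun z => (hf01 _).2
  have hfi : Integrable f := by
    refine ⟨hfm.aestronglyMeasurable, ?_⟩
    rw [hasFiniteIntegral_iff_ofReal (Eventually.of_forall fun z => (hf01 z).1)]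
    exact lt_of_le_of_lt hf4 ENNReal.ofReal_lt_top
  have hGi : Integrable G := (mp_refl.integrable_comp hfm.aestronglyMeasurable).2 hfi
  -- the family
  set g : Ω → ℝ × ℝ → ℝ := fun v z => G (z.2, z.1 - hh v * z.2) with hg
  have hgm : Measurable (fun q : Ω × (ℝ × ℝ) => g q.1 q.2) := by
    apply hGm.comp
    have h1 : Measurable (fun q : Ω × (ℝ × ℝ) => hh q.1) := hhm.comp measurable_fst
    have h2 : Measurable (fun q : Ω × (ℝ × ℝ) => q.2.1) := by fun_prop
    have h3 : Measurable (fun q : Ω × (ℝ × ℝ) => q.2.2) := by fun_prop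
    exact h3.prodMk (h2.sub (h1.mul h3))
  have hg0 : ∀ v z, 0 ≤ g v z := fun v z => hG0 _
  have hg1 : ∀ v z, g v z ≤ 1 := fun v z => hG1 _
  have hsucc : ∀ z, f' z = ∫ v, g v z ∂P := by
    intro z
    rw [hrec z]
    refine integral_congr_ae (Eventually.of_forall fun v => ?_)
    change f (z.2, hh v * z.2 - z.1) = f (z.2, -(z.1 - hh v * z.2))
    congr 2
    ring
  -- integrability on the product
  have hgi : ∀ v, Integrable (g v) := fun v =>
    ((mp_step (hh v)).integrable_comp hGm.aestronglyMeasurable).2 hGi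
  have hgint : ∀ v, ∫ z, g v z = ∫ z, G z := fun v => mp_int (mp_step (hh v)) hGm
  set F : (Ω × Ω) × (ℝ × ℝ) → ℝ := fun q => g q.1.1 q.2 * g q.1.2 q.2 with hF
  have hg1m : Measurable (fun q : (Ω × Ω) × (ℝ × ℝ) => g q.1.1 q.2) :=
    hgm.comp ((measurable_fst.comp measurable_fst).prodMk measurable_snd)
  have hg2m : Measurable (fun q : (Ω × Ω) × (ℝ × ℝ) => g q.1.2 q.2) :=
    hgm.comp ((measurable_snd.comp measurable_fst).prodMk measurable_snd)
  have hFm : Measurable F := hg1m.mul hg2m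
  have hg1i : Integrable (fun q : (Ω × Ω) × (ℝ × ℝ) => g q.1.1 q.2)
      ((P.prod P).prod volume) := by
    rw [integrable_prod_iff hg1m.aestronglyMeasurable]
    refine ⟨Eventually.of_forall fun p => hgi p.1, ?_⟩
    have e : (fun p : Ω × Ω => ∫ z, ‖g p.1 z‖) = fun _ => ∫ z, G z := by
      funext p
      rw [← hgint p.1]
      refine integral_congr_ae (Eventually.of_forall fun z => ?_)
      simp only [Real.norm_eq_abs, abs_of_nonneg (hg0 _ _)]
    rw [e]
    exact integrable_const _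
  have hFi : Integrable F ((P.prod P).prod volume) := by
    refine hg1i.mono hFm.aestronglyMeasurable (Eventually.of_forall fun q => ?_)
    rw [hF]
    simp only [Real.norm_eq_abs]
    rw [abs_of_nonneg (mul_nonneg (hg0 _ _) (hg0 _ _)), abs_of_nonneg (hg0 _ _)]
    exact mul_le_of_le_one_right (hg0 _ _) (hg1 _ _)
  -- the second moment
  have hsq : ∫ z : ℝ × ℝ, f' z ^ 2 = ∫ p, (∫ z, F (p, z)) ∂(P.prod P) := by
    have e1 : ∀ z, f' z ^ 2 = ∫ p, F (p, z) ∂(P.prod P) := by
      intro z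
      rw [hsucc z, pow_two, ← integral_prod_mul (fun v => g v z) (fun v => g v z)]
    rw [integral_congr_ae (Eventually.of_forall e1)]
    rw [← integral_prod_symm F hFi, integral_prod F hFi]
  -- the inner integrals
  set A : ℝ := ∫ z, G z ^ 2 with hA
  have hGG : Integrable (fun z => G z ^ 2) := by
    refine hGi.mono (hGm.pow_const 2).aestronglyMeasurable (Eventually.of_forall fun z => ?_)
    simp only [Real.norm_eq_abs]
    rw [abs_of_nonneg (hG0 z), abs_of_nonneg (pow_nonneg (hG0 z) 2), pow_two]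
    exact mul_le_of_le_one_right (hG0 z) (hG1 z)
  have hfA : ∫ z : ℝ × ℝ, f z ^ 2 = A := by
    rw [hA, hG]
    exact (mp_int mp_refl (hfm.pow_const 2)).symm
  set B : Ω × Ω → ℝ := fun p => ∫ z, F (p, z) with hB
  have hBi : Integrable B (P.prod P) := hFi.integral_prod_left
  have hinner : ∀ p : Ω × Ω,
      (∫ z : ℝ × ℝ, (f (z.1, -z.2) - f (z.1, -(z.2 + (hh p.1 - hh p.2) * z.1))) ^ 2) =
        2 * A - 2 * B p := by
    intro p
    set t := hh p.1 - hh p.2 with ht
    set G' : ℝ × ℝ → ℝ := fun z => G (z.1, z.2 + t * z.1) with hG'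
    have hG'm : Measurable G' := hGm.comp (mp_shear t).measurable
    have hG'i : Integrable G' := ((mp_shear t).integrable_comp hGm.aestronglyMeasurable).2 hGi
    have hG'0 : ∀ z, 0 ≤ G' z := fun z => hG0 _
    have hG'1 : ∀ z, G' z ≤ 1 := fun z => hG1 _
    have hG'G' : Integrable (fun z => G' z ^ 2) :=
      ((mp_shear t).integrable_comp (hGm.pow_const 2).aestronglyMeasurable).2 hGG
    have hG'A : ∫ z, G' z ^ 2 = A := mp_int (mp_shear t) (hGm.pow_const 2)
    have hGG' : Integrable (fun z => G z * G' z) := by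
      refine hGi.mono (hGm.mul hG'm).aestronglyMeasurable (Eventually.of_forall fun z => ?_)
      simp only [Real.norm_eq_abs]
      rw [abs_of_nonneg (hG0 z), abs_of_nonneg (mul_nonneg (hG0 z) (hG'0 z))]
      exact mul_le_of_le_one_right (hG0 z) (hG'1 z)
    have hBp : B p = ∫ z, G z * G' z := by
      have h1 := mp_int (mp_step (hh p.1)) (F := fun z => G z * G' z) (hGm.mul hG'm)
      rw [← h1, hB]
      refine integral_congr_ae (Eventually.of_forall fun z => ?_)
      change G (z.2, z.1 - hh p.1 * z.2) * G (z.2, z.1 - hh p.2 * z.2) =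
        G (z.2, z.1 - hh p.1 * z.2) * G (z.2, z.1 - hh p.1 * z.2 + t * z.2)
      congr 3
      rw [ht]
      ring
    have e : (fun z : ℝ × ℝ => (f (z.1, -z.2) - f (z.1, -(z.2 + t * z.1))) ^ 2) =
        fun z => (G z ^ 2 + G' z ^ 2) - 2 * (G z * G' z) := by
      funext z
      change (G z - G' z) ^ 2 = _
      ring
    have e1 : ∫ z, ((G z ^ 2 + G' z ^ 2) - 2 * (G z * G' z)) =
        (∫ z, (G z ^ 2 + G' z ^ 2)) - ∫ z, 2 * (G z * G' z) :=
      integral_sub (f := fun z => G z ^ 2 + G' z ^ 2) (g := fun z => 2 * (G z * G' z))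
        (hGG.add hG'G') (hGG'.const_mul 2)
    have e2 : ∫ z, (G z ^ 2 + G' z ^ 2) = (∫ z, G z ^ 2) + ∫ z, G' z ^ 2 :=
      integral_add (f := fun z => G z ^ 2) (g := fun z => G' z ^ 2) hGG hG'G'
    rw [e, e1, e2, hG'A, integral_const_mul, ← hBp, ← hA]
    ring
  have hfin : (∫ p : Ω × Ω, (∫ z : ℝ × ℝ, (f (z.1, -z.2) -
      f (z.1, -(z.2 + (hh p.1 - hh p.2) * z.1))) ^ 2) ∂(P.prod P)) =
      2 * A - 2 * ∫ p, B p ∂(P.prod P) := by
    rw [integral_congr_ae (Eventually.of_forall hinner)]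
    rw [integral_sub (integrable_const _) (hBi.const_mul 2), integral_const, integral_const_mul]
    simp
  rw [hsq, hfA, hfin]
  linarith

end Pool.Agent.H220R3.AT
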