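import Pool.Agent.H301X.BG.Stmts

set_option autoImplicit false

open MeasureTheory Topology Filter Set Metric
open scoped ENNReal NNReal ContDiff

namespace Pool.Agent.H220R3.BGMid

open Pool.Agent.H301X.BG

lemma sqI (y : ℝ) : ((y : ℂ) * Complex.I) ^ 2 = -((y ^ 2 : ℝ) : ℂ) := by
  rw [mul_pow, Complex.I_sq]
  push_cast
  ring

lemma second_diff (Q w ν b : ℂ) (y : ℝ) :
    ‖Q‖ ^ 2 + ‖Q + ((y * Complex.I) * w + b * (y * Complex.I) ^ 2 * ν)‖ ^ 2
      - 2 * ‖Q + ((y * Complex.I / 2) * w + b * (y * Complex.I / 2) ^ 2 * ν)‖ ^ 2 =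
    -y ^ 2 * (b * (ν * (starRingEnd ℂ) Q)).re + y ^ 2 * ‖w‖ ^ 2 / 2
      + 3 / 2 * ((y * Complex.I) * w * (starRingEnd ℂ) (b * (y * Complex.I) ^ 2 * ν)).re
      + 7 / 8 * (y ^ 4 * ‖b‖ ^ 2 * ‖ν‖ ^ 2) := by
  have h2 : ((y : ℂ) * Complex.I / 2) = (((y / 2 : ℝ) : ℂ) * Complex.I) := by
    push_cast
    ring
  rw [h2, sqI, sqI]
  simp only [Complex.sq_norm, Complex.normSq_apply, Complex.add_re, Complex.add_im, Complex.mul_re,
    Complex.mul_im, Complex.neg_re, Complex.neg_im, Complex.ofReal_re, Complex.ofReal_im,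
    Complex.I_re, Complex.I_im, Complex.conj_re, Complex.conj_im, map_mul]
  ring

lemma norm_sq_lower (v g : ℂ) : ‖v‖ ^ 2 - 2 * ‖v‖ * ‖g‖ ≤ ‖v + g‖ ^ 2 := by
  have h1 : ‖v‖ ≤ ‖v + g‖ + ‖g‖ := by
    calc ‖v‖ = ‖(v + g) - g‖ := by congr 1; ring
      _ ≤ _ := norm_sub_le _ _
  have h2 := norm_nonneg (v + g)
  have h3 := norm_nonneg v
  have h4 := norm_nonneg g
  rcases le_total ‖v‖ ‖g‖ with h | h
  · nlinarith
  · nlinarith

lemma norm_sq_upper (Q d : ℂ) : ‖Q + d‖ ^ 2 ≤ ‖Q‖ ^ 2 + (2 * ‖Q‖ * ‖d‖ + ‖d‖ ^ 2) := by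
  have h1 := norm_add_le Q d
  have h2 := norm_nonneg (Q + d)
  have h3 := norm_nonneg Q
  have h4 := norm_nonneg d
  nlinarith

/-- one coordinate of the second difference -/
lemma sd_lower (Q P0 v ν b a : ℂ) (y s Nv Nν : ℝ) (hs1 : s ≤ 1) (hy : |y| ≤ 2 * s)
    (ha : ‖a‖ ≤ s) (hv : ‖v‖ ≤ Nv) (hν : ‖ν‖ ≤ Nν) (hQ : ‖Q - P0‖ ≤ s) :
    -y ^ 2 * (b * (ν * (starRingEnd ℂ) P0)).re + y ^ 2 * ‖v‖ ^ 2 / 2
      - y ^ 2 * s * (Nv * Nν + 3 * (Nv + Nν) * ‖b‖ * Nν + ‖b‖ * Nν) ≤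
    ‖Q‖ ^ 2 + ‖Q + ((y * Complex.I) * (v + a * ν) + b * (y * Complex.I) ^ 2 * ν)‖ ^ 2
      - 2 * ‖Q + ((y * Complex.I / 2) * (v + a * ν) + b * (y * Complex.I / 2) ^ 2 * ν)‖ ^ 2 := by
  rw [second_diff]
  have hs0 : 0 ≤ s := (norm_nonneg a).trans ha
  have hNv : 0 ≤ Nv := (norm_nonneg v).trans hv
  have hNν : 0 ≤ Nν := (norm_nonneg ν).trans hν
  have hb0 := norm_nonneg b
  have hy2 : 0 ≤ y ^ 2 := sq_nonneg y
  -- first term
  have e1 : (b * (ν * (starRingEnd ℂ) Q)).re ≤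
      (b * (ν * (starRingEnd ℂ) P0)).re + s * (‖b‖ * Nν) := by
    have h1 : (b * (ν * (starRingEnd ℂ) Q)).re - (b * (ν * (starRingEnd ℂ) P0)).re =
        (b * (ν * (starRingEnd ℂ) (Q - P0))).re := by
      rw [← Complex.sub_re]
      congr 1
      rw [map_sub]
      ring
    have h2 : (b * (ν * (starRingEnd ℂ) (Q - P0))).re ≤ ‖b‖ * (Nν * s) := by
      refine (Complex.re_le_norm _).trans ?_
      rw [norm_mul, norm_mul, Complex.norm_conj]
      gcongr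
    linarith
  -- second term
  have e2 : ‖v‖ ^ 2 - 2 * (s * (Nv * Nν)) ≤ ‖v + a * ν‖ ^ 2 := by
    refine le_trans ?_ (norm_sq_lower v (a * ν))
    have : ‖v‖ * ‖a * ν‖ ≤ Nv * (s * Nν) := by
      rw [norm_mul]
      gcongr
    linarith
  -- third term
  have e3 : -(2 * (y ^ 2 * s * ((Nv + Nν) * ‖b‖ * Nν))) ≤
      ((y * Complex.I) * (v + a * ν) * (starRingEnd ℂ) (b * (y * Complex.I) ^ 2 * ν)).re := by
    have h1 : ‖((y : ℂ) * Complex.I) * (v + a * ν) *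
        (starRingEnd ℂ) (b * (y * Complex.I) ^ 2 * ν)‖ ≤
        2 * (y ^ 2 * s * ((Nv + Nν) * ‖b‖ * Nν)) := by
      have hw : ‖v + a * ν‖ ≤ Nv + Nν := by
        refine (norm_add_le _ _).trans ?_
        rw [norm_mul]
        have : ‖a‖ * ‖ν‖ ≤ 1 * Nν := mul_le_mul (ha.trans hs1) hν (norm_nonneg _) zero_le_one
        linarith
      rw [norm_mul, Complex.norm_conj, sqI]
      simp only [norm_mul, norm_neg, Complex.norm_real, Complex.norm_I, mul_one, Real.norm_eq_abs,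
        abs_pow, sq_abs]
      calc |y| * ‖v + a * ν‖ * (‖b‖ * y ^ 2 * ‖ν‖)
          ≤ (2 * s) * (Nv + Nν) * (‖b‖ * y ^ 2 * Nν) := by gcongr
        _ = _ := by ring
    have h2 := Complex.abs_re_le_norm (((y : ℂ) * Complex.I) * (v + a * ν) *
        (starRingEnd ℂ) (b * (y * Complex.I) ^ 2 * ν))
    have h3 := neg_abs_le (((y : ℂ) * Complex.I) * (v + a * ν) *
        (starRingEnd ℂ) (b * (y * Complex.I) ^ 2 * ν)).re
    linarith
  have e4 : 0 ≤ 7 / 8 * (y ^ 4 * ‖b‖ ^ 2 * ‖ν‖ ^ 2) := by positivity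
  have f1 := mul_le_mul_of_nonneg_left e1 hy2
  have f2 := mul_le_mul_of_nonneg_left e2 hy2
  nlinarith

theorem taskMid : TaskMid := by
  rintro n r p v ν a b c ρ hv hT hb ⟨C, hC, εB, hεB, hB⟩
  obtain ⟨V, hV⟩ : ∃ V : ℝ, V = ∑ i, ‖v i‖ ^ 2 := ⟨_, rfl⟩
  have hVpos : 0 < V := by
    obtain ⟨j, hj⟩ := Function.ne_iff.1 hv
    rw [hV]
    refine Finset.sum_pos' (fun i _ => by positivity) ⟨j, Finset.mem_univ _, ?_⟩
    have : 0 < ‖v j‖ := norm_pos_iff.2 hj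
    positivity
  obtain ⟨K, hK⟩ : ∃ K : ℝ, K = √(8 * C / V) + 1 := ⟨_, rfl⟩
  have hsq : 0 ≤ √(8 * C / V) := Real.sqrt_nonneg _
  have hK1 : 1 ≤ K := by rw [hK]; linarith
  have hK2 : 8 * C / V ≤ K ^ 2 := by
    have h1 : √(8 * C / V) ^ 2 = 8 * C / V := Real.sq_sqrt (by positivity)
    rw [hK]
    nlinarith
  refine ⟨K, by linarith, fun M hM => ?_⟩
  obtain ⟨L, hL⟩ : ∃ L : ℝ, L = ‖fderiv ℝ a p‖ := ⟨_, rfl⟩
  obtain ⟨Nv, hNv⟩ : ∃ x : ℝ, x = ‖v‖ := ⟨_, rfl⟩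
  obtain ⟨Nν, hNν⟩ : ∃ x : ℝ, x = ‖ν‖ := ⟨_, rfl⟩
  obtain ⟨β, hβ⟩ : ∃ x : ℝ, x = ‖b‖ := ⟨_, rfl⟩
  obtain ⟨P, hP⟩ : ∃ x : ℝ, x = ‖p - c‖ := ⟨_, rfl⟩
  have hL0 : 0 ≤ L := by rw [hL]; exact norm_nonneg _
  have hNv0 : 0 ≤ Nv := by rw [hNv]; exact norm_nonneg _
  have hNν0 : 0 ≤ Nν := by rw [hNν]; exact norm_nonneg _
  have hβ0 : 0 ≤ β := by rw [hβ]; exact norm_nonneg _
  have hP0 : 0 ≤ P := by rw [hP]; exact norm_nonneg _
  obtain ⟨B1, hB1⟩ : ∃ x : ℝ, x = (1 + 2 * β) * Nν + 2 * (L + 1) * Nν * (Nv + 1) := ⟨_, rfl⟩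
  have hB10 : 0 ≤ B1 := by rw [hB1]; positivity
  obtain ⟨B, hBd⟩ : ∃ x : ℝ, x = 2 * (Nv + 1) + L * B1 := ⟨_, rfl⟩
  have hB0 : 0 ≤ B := by rw [hBd]; positivity
  obtain ⟨A1, hA1⟩ : ∃ x : ℝ, x = Nv * Nν + 3 * (Nv + Nν) * β * Nν + β * Nν := ⟨_, rfl⟩
  have hA10 : 0 ≤ A1 := by rw [hA1]; positivity
  obtain ⟨A2, hA2⟩ : ∃ x : ℝ, x = n * A1 + n * ((2 * (P + 1) + 1) * (M * B * Nν)) + C / 2 :=
    ⟨_, rfl⟩
  have hA20 : 0 ≤ A2 := by rw [hA2]; positivity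
  obtain ⟨G, hG⟩ : ∃ x : ℝ, x = 1 + 2 * ((L + 1) * Nν) + (1 + 2 * β) * Nν + 4 * (M * B * Nν) +
    4 * A2 / V := ⟨_, rfl⟩
  have g1 : 0 ≤ 2 * ((L + 1) * Nν) := by positivity
  have g2 : 0 ≤ (1 + 2 * β) * Nν := by positivity
  have g3 : 0 ≤ 4 * (M * B * Nν) := by positivity
  have g4 : 0 ≤ 4 * A2 / V := by positivity
  have hG1 : 1 ≤ G := by rw [hG]; linarith
  have hG0 : 0 < G := by linarith
  obtain ⟨s, hs⟩ : ∃ s : ℝ, s = 1 / G := ⟨_, rfl⟩
  have hs0 : 0 < s := by rw [hs]; positivity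
  have hsG : s * G = 1 := by rw [hs]; field_simp
  have hs1 : s ≤ 1 := by rw [hs]; exact (div_le_one hG0).2 hG1
  have key : ∀ x : ℝ, x ≤ G → s * x ≤ 1 := by
    intro x hx
    calc s * x ≤ s * G := by gcongr
      _ = 1 := hsG
  have s1 : s * (2 * ((L + 1) * Nν)) ≤ 1 := key _ (by rw [hG]; linarith)
  have s2 : s * ((1 + 2 * β) * Nν) ≤ 1 := key _ (by rw [hG]; linarith)
  have s3 : s * (4 * (M * B * Nν)) ≤ 1 := key _ (by rw [hG]; linarith)
  have s4 : s * A2 ≤ V / 4 := by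
    have h1 : s * (4 * A2 / V) ≤ 1 := key _ (by rw [hG]; linarith)
    have h2 : s * A2 = (s * (4 * A2 / V)) * (V / 4) := by field_simp
    rw [h2]
    calc (s * (4 * A2 / V)) * (V / 4) ≤ 1 * (V / 4) := by gcongr
      _ = _ := one_mul _
  -- the strict derivative
  have hstrict := hT.a_smooth.hasStrictFDerivAt one_ne_zero
  have hst := hstrict.isLittleO.def hs0
  obtain ⟨ε2, hε2, h2⟩ := Metric.eventually_nhds_iff.1 hst
  have hcont : ∀ᶠ q in 𝓝 p, ‖a q‖ < s := by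
    have h1 : Tendsto (fun q => ‖a q‖) (𝓝 p) (𝓝 ‖a p‖) := hT.a_smooth.continuousAt.norm
    rw [hT.a_zero, norm_zero] at h1
    exact h1.eventually (gt_mem_nhds hs0)
  obtain ⟨ε1, hε1, h1⟩ := Metric.eventually_nhds_iff.1 hcont
  obtain ⟨εD, hεD, hD⟩ := hT.disc s hs0
  have hden : 0 < 1 + Nv + Nν + β * Nν := by positivity
  refine ⟨min (min s ε1) (min (min ε2 εD) (εB / (1 + Nv + Nν + β * Nν))), by positivity, ?_⟩
  intro t ht hMt q₁ hq₁ q₂ hq₂ hr1 hr2 hrt ζ₁ hζ₁ ζ₂ hζ₂ hDD hre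
  obtain ⟨ε, hε⟩ : ∃ ε : ℝ, ε = min (min s ε1) (min (min ε2 εD) (εB / (1 + Nv + Nν + β * Nν))) :=
    ⟨_, rfl⟩
  rw [← hε] at hMt hq₁ hq₂
  have b1 : ε ≤ s := by rw [hε]; exact (min_le_left _ _).trans (min_le_left _ _)
  have b2 : ε ≤ ε1 := by rw [hε]; exact (min_le_left _ _).trans (min_le_right _ _)
  have b3 : ε ≤ ε2 := by
    rw [hε]; exact (min_le_right _ _).trans ((min_le_left _ _).trans (min_le_left _ _))
  have b4 : ε ≤ εD := by
    rw [hε]; exact (min_le_right _ _).trans ((min_le_left _ _).trans (min_le_right _ _))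
  have b5 : ε * (1 + Nv + Nν + β * Nν) ≤ εB := by
    rw [← le_div_iff₀ hden, hε]
    exact (min_le_right _ _).trans (min_le_right _ _)
  have hε0 : 0 < ε := by
    have : 0 ≤ M * √t := by positivity
    linarith
  clear hε
  by_contra hcon
  push Not at hcon
  rw [mem_ball, dist_eq_norm] at hq₁ hq₂
  rw [mem_ball_zero_iff] at hζ₁ hζ₂
  obtain ⟨y, hy⟩ : ∃ y : ℝ, y = ζ₁.im - ζ₂.im := ⟨_, rfl⟩
  rw [← hy] at hcon
  have hsqt : 0 < √t := Real.sqrt_pos.2 ht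
  have hζ : ζ₁ - ζ₂ = y * Complex.I := by
    apply Complex.ext
    · simp [hre]
    · simp [hy]
  have hyn : ‖(y : ℂ) * Complex.I‖ = |y| := by simp
  have hyM : |y| ≤ 2 * ε := by
    rw [← hyn, ← hζ]
    refine (norm_sub_le _ _).trans ?_
    linarith
  have hys : |y| ≤ 2 * s := hyM.trans (by linarith)
  have hty : √t < |y| := by
    have : 1 * √t ≤ K * √t := by gcongr
    linarith
  have hζ2y : ‖ζ₂‖ ≤ M * |y| := by
    have : M * √t ≤ M * |y| := by gcongr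
    linarith
  have hy0 : 0 < |y| := hsqt.trans hty
  -- the difference of the points
  have hco : ∀ i, q₁ i + ζ₁ * (v i + a q₁ * ν i) + b * ζ₁ ^ 2 * ν i =
      q₂ i + ζ₂ * (v i + a q₂ * ν i) + b * ζ₂ ^ 2 * ν i := by
    intro i
    have := congrFun hDD i
    simp only [D, Pi.add_apply, Pi.smul_apply, smul_eq_mul] at this
    exact this
  have hζ1 : ζ₁ = ζ₂ + y * Complex.I := by rw [← hζ]; ring
  have ediff : q₂ - q₁ - ((y : ℂ) * Complex.I) • v =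
      (((y : ℂ) * Complex.I) * a q₁ - ζ₂ * (a q₂ - a q₁) +
        b * ((y : ℂ) * Complex.I) * (ζ₁ + ζ₂)) • ν := by
    funext i
    simp only [Pi.sub_apply, Pi.smul_apply, smul_eq_mul]
    have := hco i
    rw [← hζ]
    linear_combination (-1) * this
  have e2 : D v ν a b (y * Complex.I) q₁ - q₂ =
      (ζ₂ * ((a q₂ - a q₁) - 2 * b * (y * Complex.I))) • ν := by
    funext i
    simp only [D, Pi.sub_apply, Pi.add_apply, Pi.smul_apply, smul_eq_mul]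
    have := hco i
    rw [← hζ]
    linear_combination this
  obtain ⟨δ, hδ⟩ : ∃ δ : ℝ, δ = ‖q₂ - q₁‖ := ⟨_, rfl⟩
  have hδ0 : 0 ≤ δ := by rw [hδ]; exact norm_nonneg _
  have hst2 : ‖a q₂ - a q₁ - fderiv ℝ a p (q₂ - q₁)‖ ≤ s * δ := by
    have := @h2 (q₂, q₁) (by
      rw [Prod.dist_eq]
      simp only [max_lt_iff, dist_eq_norm]
      exact ⟨by linarith, by linarith⟩)
    rw [hδ]
    simpa using this
  have hLδ : ‖fderiv ℝ a p (q₂ - q₁)‖ ≤ L * δ := by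
    rw [hL, hδ]
    exact ContinuousLinearMap.le_opNorm _ _
  have ha21 : ‖a q₂ - a q₁‖ ≤ (L + 1) * δ := by
    have h3 : a q₂ - a q₁ = (a q₂ - a q₁ - fderiv ℝ a p (q₂ - q₁)) + fderiv ℝ a p (q₂ - q₁) := by
      ring
    rw [h3]
    refine (norm_add_le _ _).trans ?_
    have : s * δ ≤ 1 * δ := by gcongr
    linarith
  have ha1 : ‖a q₁‖ ≤ s := by
    refine (@h1 q₁ ?_).le
    rw [dist_eq_norm]
    linarith
  have hζ1s : ‖ζ₁‖ ≤ s := by linarith
  have hζ2s : ‖ζ₂‖ ≤ s := by linarith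
  have hd1 : ‖q₂ - q₁ - ((y : ℂ) * Complex.I) • v‖ ≤
      s * ((1 + 2 * β) * Nν) * |y| + s * ((L + 1) * Nν) * δ := by
    rw [ediff, norm_smul, ← hNν]
    have h3 : ‖((y : ℂ) * Complex.I) * a q₁ - ζ₂ * (a q₂ - a q₁) +
        b * ((y : ℂ) * Complex.I) * (ζ₁ + ζ₂)‖ ≤
        |y| * s + s * ((L + 1) * δ) + β * |y| * (2 * s) := by
      refine (norm_add_le _ _).trans ?_
      refine add_le_add ((norm_sub_le _ _).trans (add_le_add ?_ ?_)) ?_
      · rw [norm_mul, hyn]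
        gcongr
      · rw [norm_mul]
        gcongr
      · rw [norm_mul, norm_mul, hyn, ← hβ]
        have : ‖ζ₁ + ζ₂‖ ≤ 2 * s := (norm_add_le _ _).trans (by linarith)
        gcongr
    calc _ ≤ (|y| * s + s * ((L + 1) * δ) + β * |y| * (2 * s)) * Nν := by gcongr
      _ = _ := by ring
  have hδy : δ ≤ 2 * (Nv + 1) * |y| := by
    have h3 : δ ≤ ‖q₂ - q₁ - ((y : ℂ) * Complex.I) • v‖ + |y| * Nv := by
      rw [hδ]
      calc ‖q₂ - q₁‖ = ‖(q₂ - q₁ - ((y : ℂ) * Complex.I) • v) + ((y : ℂ) * Complex.I) • v‖ := by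
            congr 1; abel
        _ ≤ _ := (norm_add_le _ _).trans (by rw [norm_smul, hyn, hNv])
    have h4 : s * ((1 + 2 * β) * Nν) * |y| ≤ 1 * |y| := by gcongr
    have h5 : s * ((L + 1) * Nν) * δ ≤ 1 / 2 * δ := by
      have : s * ((L + 1) * Nν) ≤ 1 / 2 := by linarith
      gcongr
    linarith
  have hd2 : ‖q₂ - q₁ - ((y : ℂ) * Complex.I) • v‖ ≤ s * B1 * |y| := by
    refine hd1.trans ?_
    have h3 : s * ((L + 1) * Nν) * δ ≤ s * ((L + 1) * Nν) * (2 * (Nv + 1) * |y|) := by gcongr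
    calc _ ≤ s * ((1 + 2 * β) * Nν) * |y| + s * ((L + 1) * Nν) * (2 * (Nv + 1) * |y|) := by
          linarith
      _ = _ := by rw [hB1]; ring
  have haB : ‖(a q₂ - a q₁) - 2 * b * (y * Complex.I)‖ ≤ s * B * |y| := by
    have h3 : (a q₂ - a q₁) - 2 * b * (y * Complex.I) =
        (a q₂ - a q₁ - fderiv ℝ a p (q₂ - q₁)) +
          fderiv ℝ a p (q₂ - q₁ - ((y : ℂ) * Complex.I) • v) := by
      rw [map_sub (fderiv ℝ a p) (q₂ - q₁), hT.a_der rfl]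
      ring
    rw [h3]
    refine (norm_add_le _ _).trans ?_
    have h4 : ‖fderiv ℝ a p (q₂ - q₁ - ((y : ℂ) * Complex.I) • v)‖ ≤ L * (s * B1 * |y|) := by
      refine (ContinuousLinearMap.le_opNorm _ _).trans ?_
      rw [← hL]
      gcongr
    have h5 : s * δ ≤ s * (2 * (Nv + 1) * |y|) := by gcongr
    calc _ ≤ s * (2 * (Nv + 1) * |y|) + L * (s * B1 * |y|) := by linarith
      _ = _ := by rw [hBd]; ring
  obtain ⟨dd, hdd⟩ : ∃ x : ℝ, x = s * (M * B * Nν) * y ^ 2 := ⟨_, rfl⟩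
  have hy2 : |y| * |y| = y ^ 2 := by rw [← sq_abs y]; ring
  have hdd0 : 0 ≤ dd := by rw [hdd]; positivity
  have hd3 : ‖D v ν a b (y * Complex.I) q₁ - q₂‖ ≤ dd := by
    rw [e2, norm_smul, norm_mul, ← hNν]
    calc ‖ζ₂‖ * ‖(a q₂ - a q₁) - 2 * b * (y * Complex.I)‖ * Nν
        ≤ (M * |y|) * (s * B * |y|) * Nν := by gcongr
      _ = s * (M * B * Nν) * (|y| * |y|) := by ring
      _ = dd := by rw [hy2, hdd]
  have hy4 : y ^ 2 ≤ 4 := by
    rw [← hy2]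
    have h3 : |y| ≤ 2 := by linarith only [hys, hs1]
    calc |y| * |y| ≤ 2 * 2 := mul_le_mul h3 h3 hy0.le zero_le_two
      _ = 4 := by norm_num
  have hdd1 : dd ≤ 1 := by
    rw [hdd]
    calc s * (M * B * Nν) * y ^ 2 ≤ s * (M * B * Nν) * 4 := by gcongr
      _ = s * (4 * (M * B * Nν)) := by ring
      _ ≤ 1 := s3
  -- the upper bound of r2 q2'
  have up : r2 c ρ (D v ν a b (y * Complex.I) q₁) ≤ r2 c ρ q₂ + n * ((2 * (P + 1) + 1) * dd) := by
    unfold r2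
    have h3 : ∀ i ∈ (Finset.univ : Finset (Fin n)),
        ‖D v ν a b (y * Complex.I) q₁ i - c i‖ ^ 2 ≤
          ‖q₂ i - c i‖ ^ 2 + (2 * (P + 1) + 1) * dd := by
      intro i _
      have h4 : D v ν a b (y * Complex.I) q₁ i - c i =
          (q₂ i - c i) + (D v ν a b (y * Complex.I) q₁ - q₂) i := by
        simp only [Pi.sub_apply]
        ring
      rw [h4]
      refine (norm_sq_upper _ _).trans ?_
      have h5 : ‖(D v ν a b (y * Complex.I) q₁ - q₂) i‖ ≤ dd :=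
        (norm_le_pi_norm _ i).trans hd3
      have h6 : ‖q₂ i - c i‖ ≤ P + 1 := by
        have h7 : q₂ i - c i = (q₂ - p) i + (p - c) i := by
          simp only [Pi.sub_apply]
          ring
        rw [h7]
        refine (norm_add_le _ _).trans ?_
        have h8 := norm_le_pi_norm (q₂ - p) i
        have h9 := norm_le_pi_norm (p - c) i
        rw [← hP] at h9
        linarith
      have h10 : 2 * ‖q₂ i - c i‖ * ‖(D v ν a b (y * Complex.I) q₁ - q₂) i‖ ≤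
          2 * (P + 1) * dd := by gcongr
      have h11 : ‖(D v ν a b (y * Complex.I) q₁ - q₂) i‖ ^ 2 ≤ dd := by
        calc _ ≤ dd ^ 2 := by gcongr
          _ ≤ dd := pow_le_of_le_one hdd0 hdd1 two_ne_zero
      linarith
    have h4 := Finset.sum_le_sum h3
    rw [Finset.sum_add_distrib, Finset.sum_const, Finset.card_univ, Fintype.card_fin,
      nsmul_eq_mul] at h4
    linarith
  -- the midpoint
  obtain ⟨m, hm⟩ : ∃ m, m = D v ν a b (y * Complex.I / 2) q₁ := ⟨_, rfl⟩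
  have hyn2 : ‖(y : ℂ) * Complex.I / 2‖ = |y| / 2 := by
    rw [norm_div, hyn]
    simp
  have hmB : m ∈ ball p εB := by
    rw [mem_ball, dist_eq_norm]
    have h3 : m - p = (q₁ - p) + ((y : ℂ) * Complex.I / 2) • (v + a q₁ • ν) +
        (b * ((y : ℂ) * Complex.I / 2) ^ 2) • ν := by
      rw [hm]
      unfold D
      abel
    rw [h3]
    have h4 : ‖((y : ℂ) * Complex.I / 2) • (v + a q₁ • ν)‖ ≤ ε * (Nv + Nν) := by
      rw [norm_smul, hyn2]
      have h5 : ‖v + a q₁ • ν‖ ≤ Nv + Nν := by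
        refine (norm_add_le _ _).trans ?_
        rw [norm_smul, ← hNv, ← hNν]
        have : ‖a q₁‖ * Nν ≤ 1 * Nν := by
          have := ha1.trans hs1
          gcongr
        linarith
      have h6 : |y| / 2 ≤ ε := by linarith
      gcongr
    have h5 : ‖(b * ((y : ℂ) * Complex.I / 2) ^ 2) • ν‖ ≤ ε * (β * Nν) := by
      rw [norm_smul, norm_mul, norm_pow, hyn2, ← hβ, ← hNν]
      have h6 : |y| / 2 ≤ ε := by linarith
      have h7 : (|y| / 2) ^ 2 ≤ ε := by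
        calc (|y| / 2) ^ 2 ≤ ε ^ 2 := by gcongr
          _ ≤ ε := pow_le_of_le_one hε0.le (b1.trans hs1) two_ne_zero
      calc β * (|y| / 2) ^ 2 * Nν ≤ β * ε * Nν := by gcongr
        _ = _ := by ring
    calc _ ≤ ‖(q₁ - p) + ((y : ℂ) * Complex.I / 2) • (v + a q₁ • ν)‖ +
          ‖(b * ((y : ℂ) * Complex.I / 2) ^ 2) • ν‖ := norm_add_le _ _
      _ ≤ ‖q₁ - p‖ + ‖((y : ℂ) * Complex.I / 2) • (v + a q₁ • ν)‖ +
          ‖(b * ((y : ℂ) * Complex.I / 2) ^ 2) • ν‖ := by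
            gcongr
            exact norm_add_le _ _
      _ < ε + ε * (Nv + Nν) + ε * (β * Nν) := by linarith
      _ = ε * (1 + Nv + Nν + β * Nν) := by ring
      _ ≤ εB := b5
  have hrm : - r m ≤ t + s * y ^ 2 / 4 := by
    have h3 := hD q₁ (by rw [mem_ball, dist_eq_norm]; linarith) ((y : ℂ) * Complex.I / 2) (by
      rw [mem_ball_zero_iff, hyn2]
      have h4 : |y| < 2 * ε := by
        rw [← hyn, ← hζ]
        refine (norm_sub_le _ _).trans_lt ?_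
        linarith
      linarith)
    rw [← hm, hyn2, zero_mul, sub_zero, div_pow, sq_abs] at h3
    have h4 := (abs_le.1 h3).1
    linarith
  have hr2m : - r2 c ρ m ≤ C * (t + s * y ^ 2 / 4) := by
    by_cases h3 : r2 c ρ m < 0
    · refine (hB m hmB h3).trans ?_
      gcongr
    · push Not at h3
      have : 0 ≤ C * (t + s * y ^ 2 / 4) := by positivity
      linarith
  -- the lower bound
  have lo : y ^ 2 * V / 2 - n * (y ^ 2 * s * A1) ≤
      r2 c ρ q₁ + r2 c ρ (D v ν a b (y * Complex.I) q₁) - 2 * r2 c ρ m := by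
    have h3 : r2 c ρ q₁ + r2 c ρ (D v ν a b (y * Complex.I) q₁) - 2 * r2 c ρ m =
        ∑ i, (‖q₁ i - c i‖ ^ 2 + ‖(q₁ i - c i) + ((y * Complex.I) * (v i + a q₁ * ν i) +
          b * (y * Complex.I) ^ 2 * ν i)‖ ^ 2 - 2 * ‖(q₁ i - c i) +
          ((y * Complex.I / 2) * (v i + a q₁ * ν i) + b * (y * Complex.I / 2) ^ 2 * ν i)‖ ^ 2) := by
      rw [Finset.sum_sub_distrib, Finset.sum_add_distrib, ← Finset.mul_sum]
      have e5 : ∀ z : ℂ, ∀ i, D v ν a b z q₁ i - c i =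
          (q₁ i - c i) + (z * (v i + a q₁ * ν i) + b * z ^ 2 * ν i) := by
        intro z i
        simp only [D, Pi.add_apply, Pi.smul_apply, smul_eq_mul]
        ring
      unfold r2
      rw [hm]
      simp only [e5]
      ring
    rw [h3]
    have h4 : ∀ i ∈ (Finset.univ : Finset (Fin n)),
        -y ^ 2 * (b * (ν i * (starRingEnd ℂ) (p i - c i))).re + y ^ 2 * ‖v i‖ ^ 2 / 2
          - y ^ 2 * s * A1 ≤
        ‖q₁ i - c i‖ ^ 2 + ‖(q₁ i - c i) + ((y * Complex.I) * (v i + a q₁ * ν i) +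
          b * (y * Complex.I) ^ 2 * ν i)‖ ^ 2 - 2 * ‖(q₁ i - c i) +
          ((y * Complex.I / 2) * (v i + a q₁ * ν i) + b * (y * Complex.I / 2) ^ 2 * ν i)‖ ^ 2 := by
      intro i _
      have h5 := sd_lower (q₁ i - c i) (p i - c i) (v i) (ν i) b (a q₁) y s Nv Nν hs1 hys ha1
        (by rw [hNv]; exact norm_le_pi_norm v i) (by rw [hNν]; exact norm_le_pi_norm ν i) (by
          have h6 : q₁ i - c i - (p i - c i) = (q₁ - p) i := by
            simp only [Pi.sub_apply]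
            ring
          rw [h6]
          exact (norm_le_pi_norm _ i).trans (by linarith))
      rw [← hβ, ← hA1] at h5
      exact h5
    refine le_trans ?_ (Finset.sum_le_sum h4)
    rw [Finset.sum_sub_distrib, Finset.sum_add_distrib, ← Finset.mul_sum, Finset.sum_const,
      Finset.card_univ, Fintype.card_fin, nsmul_eq_mul]
    have h5 : ∑ i, (b * (ν i * (starRingEnd ℂ) (p i - c i))).re ≤ 0 := by
      rw [← Complex.re_sum, ← Finset.mul_sum]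
      exact hb
    have h6 : ∑ i, y ^ 2 * ‖v i‖ ^ 2 / 2 = y ^ 2 * V / 2 := by
      rw [← Finset.sum_div, ← Finset.mul_sum, ← hV]
    rw [h6]
    have h7 : 0 ≤ -y ^ 2 * ∑ i, (b * (ν i * (starRingEnd ℂ) (p i - c i))).re := by
      have := mul_nonneg (sq_nonneg y) (neg_nonneg.2 h5)
      linarith
    linarith
  -- the end
  have fin1 : y ^ 2 * V / 2 - s * A2 * y ^ 2 ≤ 2 * C * t := by
    have h3 : s * A2 * y ^ 2 = n * (y ^ 2 * s * A1) + n * ((2 * (P + 1) + 1) * dd) +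
        2 * (C * (s * y ^ 2 / 4)) := by
      rw [hA2, hdd]
      ring
    rw [h3]
    linarith
  have fin2 : y ^ 2 * V / 4 ≤ 2 * C * t := by
    have : s * A2 * y ^ 2 ≤ V / 4 * y ^ 2 := by gcongr
    linarith
  have fin3 : K ^ 2 * t < y ^ 2 := by
    have h3 : (K * √t) * (K * √t) < |y| * |y| := by
      apply mul_self_lt_mul_self (by positivity) hcon
    rw [hy2] at h3
    have h4 : (K * √t) * (K * √t) = K ^ 2 * t := by
      calc (K * √t) * (K * √t) = K ^ 2 * (√t * √t) := by ring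
        _ = _ := by rw [Real.mul_self_sqrt ht.le]
    linarith
  have fin4 : 8 * C / V * t < y ^ 2 := by
    have : 8 * C / V * t ≤ K ^ 2 * t := by gcongr
    linarith
  have fin5 : 8 * C / V * t * V = 8 * C * t := by field_simp
  have fin6 : 8 * C / V * t * V < y ^ 2 * V := by gcongr
  linarith

end Pool.Agent.H220R3.BGMid
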