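import Pool.Agent.H242R3.ES.StmtsN

set_option autoImplicit false

open MeasureTheory Finset
open scoped Classical

namespace Pool.Agent.H220R3.ESN8c

open Pool.Agent.H242R3.ES

/-- the top face of a flag gives a nonnegative functional -/
lemma top {ι E : Type} [Fintype ι] [AddCommGroup E] [Module ℝ E] {V : ι → E} {j : ι} {m : ℕ}
    {s : Finset (Set ι)} (hs : ∀ T ∈ s, T ∈ FA V j) {T : Set ι} (hT : T ∈ s)
    (htop : ∀ T' ∈ s, T' ⊆ T) :
    ∃ l : E →ₗ[ℝ] ℝ, (∀ i, 0 ≤ l (V i)) ∧ l (V j) = 0 ∧ l ≠ 0 ∧ (∀ R ∈ s, l (Y V R) = 0) ∧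
      ∀ R, 0 ≤ l (Y V R) := by
  obtain ⟨⟨l, hl0, hl⟩, hj, _, hne⟩ := hs T hT
  refine ⟨l, hl0, (hl j).1 hj, ?_, ?_, ?_⟩
  · rintro rfl
    apply hne
    ext i
    simp [hl]
  · intro R hR
    unfold Y
    rw [map_sum]
    refine Finset.sum_eq_zero fun k hk => ?_
    exact (hl k).1 (htop R hR (Finset.mem_filter.1 hk).2)
  · intro R
    unfold Y
    rw [map_sum]
    exact Finset.sum_nonneg fun k _ => hl0 k

theorem t : TaskN8c := by
  intro hPM hUn ι E _ _ _ _ V j o m p h8 s hs s' hs' hne x x' hx hx' heq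
  obtain ⟨-, -, htop, -⟩ := hPM ι E V j m h8.vert h8.span h8.fin h8.one
  obtain ⟨hc, hF, hch⟩ := (Finset.mem_filter.1 hs).2
  obtain ⟨hc', hF', hch'⟩ := (Finset.mem_filter.1 hs').2
  by_contra hcon
  push Not at hcon
  have hpos : ∀ T ∈ s, 0 < x T := fun T hT => lt_of_le_of_ne (hx T) (Ne.symm (hcon T hT))
  have hker : (∑ T ∈ s, x T • Y V T) - ∑ T ∈ s', x' T • Y V T ∈ LinearMap.ker p := by
    rw [LinearMap.mem_ker, map_sub, map_sum, map_sum]
    simp only [map_smul]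
    rw [heq, sub_self]
  rw [h8.ker, Submodule.mem_span_pair] at hker
  obtain ⟨α, β, hαβ⟩ := hker
  rcases lt_trichotomy β 0 with hβ | hβ | hβ
  · obtain ⟨T, hT, -, hTt⟩ := htop s' hs'
    obtain ⟨l, h1, h2, h3, h4, h5⟩ := top (m := m) hF' hT hTt
    have h6 := h8.opp l h1 h2 h3
    have h7 := congrArg l hαβ
    rw [map_add, map_smul, map_smul, map_sub, map_sum, map_sum, h2] at h7
    simp only [map_smul, smul_eq_mul, mul_zero, zero_add] at h7
    rw [Finset.sum_eq_zero (s := s') (fun R hR => by rw [h4 R hR, mul_zero]), sub_zero] at h7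
    have h8' : 0 ≤ ∑ T ∈ s, x T * l (Y V T) :=
      Finset.sum_nonneg fun R _ => mul_nonneg (hx R) (h5 R)
    have h9 := mul_neg_of_neg_of_pos hβ h6
    linarith
  · subst hβ
    rw [zero_smul, add_zero] at hαβ
    have h1 : (0 : ℝ) • V j + ∑ R ∈ s, x R • Y V R = α • V j + ∑ R ∈ s', x' R • Y V R := by
      rw [hαβ, zero_smul]
      abel
    obtain ⟨h2, -, -⟩ := hUn ι E V j h8.vert s s'
      (fun R hR => ⟨(hF R hR).1, (hF R hR).2.1, (hF R hR).2.2.1⟩)
      (fun R hR => ⟨(hF' R hR).1, (hF' R hR).2.1, (hF' R hR).2.2.1⟩)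
      hch hch' 0 α x x' hpos (fun R _ => hx' R) h1
    exact hne (Finset.eq_of_subset_of_card_le h2 (by rw [hc, hc']))
  · obtain ⟨T, hT, -, hTt⟩ := htop s hs
    obtain ⟨l, h1, h2, h3, h4, h5⟩ := top (m := m) hF hT hTt
    have h6 := h8.opp l h1 h2 h3
    have h7 := congrArg l hαβ
    rw [map_add, map_smul, map_smul, map_sub, map_sum, map_sum, h2] at h7
    simp only [map_smul, smul_eq_mul, mul_zero, zero_add] at h7
    rw [Finset.sum_eq_zero (s := s) (fun R hR => by rw [h4 R hR, mul_zero]), zero_sub] at h7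
    have h8' : 0 ≤ ∑ T ∈ s', x' T * l (Y V T) :=
      Finset.sum_nonneg fun R _ => mul_nonneg (hx' R) (h5 R)
    have h9 := mul_pos hβ h6
    linarith

end Pool.Agent.H220R3.ESN8c
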